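import Pool.Agent.Helper30_SkewP4.Stmts

/-!
# QEX and TRQ: pseudo inverses of the generic matrix and their traces (MP_d1c004_ag)
-/

set_option autoImplicit false

open scoped Matrix

namespace Pool.Agent.SkewP4.H59

variable {n : ℕ} {A : Fin 5 → Matrix (Fin n) (Fin n) ℂ}

theorem genMat_skew (hA : ConstRank A) : (genMat A)ᵀ = -(genMat A) := by
  unfold genMat
  rw [Matrix.transpose_sum, ← Finset.sum_neg_distrib]
  refine Finset.sum_congr rfl fun j _ => ?_
  rw [Matrix.transpose_smul, ← Matrix.transpose_map, hA.skew j, ← smul_neg]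
  congr 1
  ext a b
  simp

/-- the ideal of the `p` for which `p A` has a pseudo inverse -/
def idl (A : Fin 5 → Matrix (Fin n) (Fin n) ℂ) : Ideal S where
  carrier := {p | ∃ Q : Matrix (Fin n) (Fin n) S, genMat A * Q * genMat A = p • genMat A}
  zero_mem' := ⟨0, by simp⟩
  add_mem' := by
    rintro p q ⟨Q, hQ⟩ ⟨R, hR⟩
    exact ⟨Q + R, by rw [mul_add, add_mul, hQ, hR, add_smul]⟩
  smul_mem' := by
    rintro c p ⟨Q, hQ⟩
    refine ⟨c • Q, ?_⟩
    rw [mul_smul_comm, smul_mul_assoc, hQ, smul_smul]
    rfl

theorem mem_idl {p : S} : p ∈ idl A ↔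
    ∃ Q : Matrix (Fin n) (Fin n) S, genMat A * Q * genMat A = p • genMat A := Iff.rfl

/-- QEX -/
theorem qex (hB : BlkStmt) : QexStmt := by
  intro n A hA
  have hX : ∀ j : Fin 5, ∃ N : ℕ, (MvPolynomial.X j : S) ^ N ∈ idl A := by
    intro j
    have h1 : (MvPolynomial.X j : S) ∈
        MvPolynomial.vanishingIdeal ℂ (MvPolynomial.zeroLocus ℂ (idl A)) := by
      rw [MvPolynomial.mem_vanishingIdeal_iff]
      intro x hx
      rw [MvPolynomial.mem_zeroLocus_iff] at hx
      by_cases h0 : x = 0
      · subst h0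
        simp
      · obtain ⟨p, Q, hp, hQ⟩ := hB n A hA x h0
        exact absurd (hx p ⟨Q, hQ⟩) hp
    rw [MvPolynomial.vanishingIdeal_zeroLocus_eq_radical] at h1
    exact h1
  choose N hN using hX
  have hN' : ∀ j : Fin 5, (MvPolynomial.X j : S) ^ (∑ i, N i) ∈ idl A := by
    intro j
    have h1 : N j ≤ ∑ i, N i := Finset.single_le_sum (fun _ _ => Nat.zero_le _) (Finset.mem_univ j)
    rw [← Nat.sub_add_cancel h1, pow_add]
    exact (idl A).mul_mem_left _ (hN j)
  choose Q hQ using hN'
  have hsk := genMat_skew hA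
  refine ⟨∑ i, N i, fun j => (MvPolynomial.C (1 / 2 : ℂ) : S) • (Q j - (Q j)ᵀ), ?_, ?_⟩
  · intro j
    rw [Matrix.transpose_smul, Matrix.transpose_sub, Matrix.transpose_transpose, ← smul_neg,
      neg_sub]
  · intro j
    have h1 : genMat A * (Q j)ᵀ * genMat A =
        -((MvPolynomial.X j : S) ^ (∑ i, N i) • genMat A) := by
      have h2 := congrArg Matrix.transpose (hQ j)
      rw [Matrix.transpose_mul, Matrix.transpose_mul, Matrix.transpose_smul, hsk] at h2
      rw [neg_mul, mul_neg, mul_neg, neg_neg, smul_neg, ← Matrix.mul_assoc] at h2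
      exact h2
    rw [mul_smul_comm, smul_mul_assoc, mul_sub, sub_mul, hQ j, h1, sub_neg_eq_add, ← two_smul S,
      smul_smul]
    have h3 : (MvPolynomial.C (1 / 2 : ℂ) : S) * 2 = 1 := by
      have : (2 : S) = MvPolynomial.C (2 : ℂ) := by
        rw [← map_ofNat (MvPolynomial.C : ℂ →+* S) 2]
      rw [this, ← map_mul]
      norm_num
    rw [h3, one_smul]

/-! ### traces -/

/-- the trace of an idempotent matrix is its rank -/
theorem trace_idem (E : Matrix (Fin n) (Fin n) ℂ) (hE : E * E = E) : E.trace = (E.rank : ℂ) := by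
  have hp : LinearMap.IsProj (LinearMap.range (Matrix.toLin' E)) (Matrix.toLin' E) := by
    constructor
    · intro x
      exact LinearMap.mem_range_self _ x
    · rintro x ⟨y, rfl⟩
      rw [← LinearMap.comp_apply, ← Matrix.toLin'_mul, hE]
  have h1 := hp.trace
  rw [Matrix.trace_toLin'_eq] at h1
  rw [h1, Matrix.rank, Matrix.toLin'_apply']

theorem eval_genMat (x : Fin 5 → ℂ) : (genMat A).map (MvPolynomial.eval x) = evMat A x := by
  ext a b
  simp only [genMat, evMat, Matrix.map_apply, Matrix.sum_apply, Matrix.smul_apply, smul_eq_mul,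
    map_sum, map_mul, MvPolynomial.eval_X, MvPolynomial.eval_C]

/-- TRQ -/
theorem trq : TrqStmt := by
  intro n A hA j N Q hQ
  have key : (MvPolynomial.X j : S) * (Q * genMat A).trace =
      (MvPolynomial.X j : S) * (((n : S) - 2) * (MvPolynomial.X j : S) ^ N) := by
    apply MvPolynomial.funext
    intro x
    rw [map_mul, map_mul, MvPolynomial.eval_X]
    by_cases hx : x j = 0
    · rw [hx, zero_mul, zero_mul]
    congr 1
    have hx0 : x ≠ 0 := by
      rintro rfl
      exact hx rfl
    have hr := hA.rk x hx0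
    set a := evMat A x with ha
    set q := Q.map (MvPolynomial.eval x) with hq
    have h1 : a * q * a = (x j) ^ N • a := by
      have h2 := congrArg (fun M : Matrix (Fin n) (Fin n) S => M.map (MvPolynomial.eval x)) hQ
      simp only [Matrix.map_mul, eval_genMat] at h2
      rw [← ha, ← hq] at h2
      rw [h2]
      ext s t
      simp only [Matrix.map_apply, Matrix.smul_apply, smul_eq_mul, map_mul, map_pow,
        MvPolynomial.eval_X]
      rw [← eval_genMat (A := A) x] at ha
      rw [ha, Matrix.map_apply]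
    have hc : (x j) ^ N ≠ 0 := pow_ne_zero _ hx
    have h3 : MvPolynomial.eval x (Q * genMat A).trace = (q * a).trace := by
      rw [hq, ha, ← eval_genMat (A := A) x, ← Matrix.map_mul]
      simp only [Matrix.trace, Matrix.diag, map_sum, Matrix.map_apply]
    rw [h3]
    set E := ((x j) ^ N)⁻¹ • (q * a) with hE
    have h4 : E * E = E := by
      rw [hE, smul_mul_smul_comm]
      have : q * a * (q * a) = (x j) ^ N • (q * a) := by
        calc q * a * (q * a) = q * (a * q * a) := by simp only [Matrix.mul_assoc]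
          _ = (x j) ^ N • (q * a) := by rw [h1, Matrix.mul_smul]
      rw [this, smul_smul, mul_assoc, inv_mul_cancel₀ hc, mul_one]
    have h5 : E.rank = a.rank := by
      apply le_antisymm
      · rw [hE, ← Matrix.smul_mul]
        exact Matrix.rank_mul_le_right _ _
      · have h6 : a = a * E := by
          rw [hE, Matrix.mul_smul, ← Matrix.mul_assoc, h1, smul_smul, inv_mul_cancel₀ hc, one_smul]
        calc a.rank = (a * E).rank := by rw [← h6]
          _ ≤ E.rank := Matrix.rank_mul_le_right _ _
    have h7 := trace_idem E h4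
    have h8 : (q * a).trace = (x j) ^ N * E.trace := by
      rw [hE, Matrix.trace_smul, smul_eq_mul, ← mul_assoc, mul_inv_cancel₀ hc, one_mul]
    rw [h8, h7, h5]
    have h9 : (a.rank : ℂ) = (n : ℂ) - 2 := by
      have h10 : ((a.rank + 2 : ℕ) : ℂ) = (n : ℂ) := congrArg Nat.cast hr
      rw [← h10]; push_cast; ring
    rw [h9]
    simp only [map_mul, map_sub, map_natCast, map_ofNat, map_pow, MvPolynomial.eval_X]
    ring
  exact mul_left_cancel₀ (MvPolynomial.X_ne_zero j) key

end Pool.Agent.SkewP4.H59
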